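import Pool.Agent.W432.LT.Core

set_option autoImplicit false

namespace Pool.Agent.W432.LT

open Finset

theorem odd_of (n : ℕ) (hn : 1 < n) (hc : ¬ n.Prime) (h : Nat.totient n ∣ n - 1) : ¬ 2 ∣ n := by
  intro h2
  have hn2 : 2 < n := by
    rcases Nat.lt_or_ge 2 n with h' | h'
    · exact h'
    · have : n = 2 := by omega
      subst this
      exact absurd Nat.prime_two hc
  have h3 := (Nat.totient_even hn2).two_dvd.trans h
  omega

theorem sqf (n : ℕ) (hn : 1 < n) (h : Nat.totient n ∣ n - 1) : Squarefree n := by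
  rw [Nat.squarefree_iff_prime_squarefree]
  intro p hp hpp
  have h1 : p ∣ Nat.totient (p * p) := by
    rw [Nat.totient_mul_of_prime_of_dvd hp (dvd_refl p)]
    exact dvd_mul_right _ _
  have h2 : p ∣ n - 1 := (h1.trans (Nat.totient_dvd_of_dvd hpp)).trans h
  have h3 : p ∣ n := (dvd_mul_right p p).trans hpp
  have h4 : p ∣ 1 := by
    have := Nat.dvd_sub h3 h2
    rwa [show n - (n - 1) = 1 by omega] at this
  exact hp.one_lt.ne' (Nat.dvd_one.mp h4)

theorem tot_eq (n : ℕ) (hn : 1 < n) (hs : Squarefree n) :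
    Nat.totient n = ∏ p ∈ n.primeFactors, (p - 1) := by
  have h1 := Nat.totient_mul_prod_primeFactors n
  rw [Nat.prod_primeFactors_of_squarefree hs, mul_comm] at h1
  exact Nat.eq_of_mul_eq_mul_left (by omega) h1

theorem prime_facts (n : ℕ) (hn : 1 < n) (hc : ¬ n.Prime) (h : Nat.totient n ∣ n - 1)
    (p : ℕ) (hp : p ∈ n.primeFactors) :
    p.Prime ∧ 3 ≤ p ∧ p - 1 ∣ n - 1 ∧ ¬ p ∣ n - 1 ∧ 2 ∣ p - 1 := by
  have hpp := Nat.prime_of_mem_primeFactors hp
  have hpn := Nat.dvd_of_mem_primeFactors hp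
  have h2 := odd_of n hn hc h
  have hp2 : p ≠ 2 := by rintro rfl; exact h2 hpn
  have hp3 : 3 ≤ p := by
    have := hpp.two_le
    omega
  refine ⟨hpp, hp3, ?_, ?_, ?_⟩
  · refine dvd_trans ?_ h
    rw [tot_eq n hn (sqf n hn h)]
    exact Finset.dvd_prod_of_mem _ hp
  · intro h3
    have h4 : p ∣ 1 := by
      have := Nat.dvd_sub hpn h3
      rwa [show n - (n - 1) = 1 by omega] at this
    exact hpp.one_lt.ne' (Nat.dvd_one.mp h4)
  · have := hpp.eq_two_or_odd
    omega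

theorem two_le (n K : ℕ) (hn : 1 < n) (hc : ¬ n.Prime) (hK : n - 1 = Nat.totient n * K) :
    2 ≤ K := by
  rcases Nat.lt_or_ge K 2 with h | h
  · interval_cases K
    · omega
    · exact absurd ((Nat.totient_eq_iff_prime (by omega)).mp (by omega)) hc
  · exact h

theorem four_le (n K : ℕ) (hn : 1 < n) (hc : ¬ n.Prime) (hK : n - 1 = Nat.totient n * K)
    (h3 : ¬ 3 ∣ n - 1) : 4 ≤ K := by
  have h : Nat.totient n ∣ n - 1 := ⟨K, hK⟩
  have hs := sqf n hn h
  have h2 := two_le n K hn hc hK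
  have hp : ∀ p ∈ n.primeFactors, p ≠ 3 → ((p - 1 : ℕ) : ZMod 3) = 1 := by
    intro p hp hp3
    obtain ⟨hpp, hp3', hd, hnd, he⟩ := prime_facts n hn hc h p hp
    have h1 : ¬ 3 ∣ p - 1 := fun h' => h3 (h'.trans hd)
    have h4 : ¬ 3 ∣ p := by
      intro h'
      exact hp3 ((Nat.prime_dvd_prime_iff_eq Nat.prime_three hpp).mp h').symm
    have h5 : (p - 1) % 3 = 1 := by omega
    have h6 : ((p - 1 : ℕ) : ZMod 3) = ((1 : ℕ) : ZMod 3) := by
      rw [ZMod.natCast_eq_natCast_iff']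
      omega
    rw [h6, Nat.cast_one]
  have hmod : ((Nat.totient n : ℕ) : ZMod 3) = ((n - 1 : ℕ) : ZMod 3) := by
    rw [tot_eq n hn hs, Nat.cast_prod]
    by_cases h3n : 3 ∣ n
    · have hm : 3 ∈ n.primeFactors := Nat.mem_primeFactors.mpr ⟨Nat.prime_three, h3n, by omega⟩
      rw [← Finset.mul_prod_erase _ _ hm, Finset.prod_eq_one (fun p hp' =>
        hp p (Finset.mem_erase.mp hp').2 (Finset.mem_erase.mp hp').1), mul_one,
        ZMod.natCast_eq_natCast_iff']
      omega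
    · rw [Finset.prod_eq_one (fun p hp' => hp p hp' (by
        rintro rfl
        exact h3n (Nat.dvd_of_mem_primeFactors hp')))]
      have h6 : ((n - 1 : ℕ) : ZMod 3) = ((1 : ℕ) : ZMod 3) := by
        rw [ZMod.natCast_eq_natCast_iff']
        omega
      rw [h6, Nat.cast_one]
  have hK3 : ((n - 1 : ℕ) : ZMod 3) = ((n - 1 : ℕ) : ZMod 3) * (K : ZMod 3) := by
    conv_lhs => rw [hK]
    rw [Nat.cast_mul, hmod]
  have hne : ((n - 1 : ℕ) : ZMod 3) ≠ 0 := by
    rw [Ne, ZMod.natCast_eq_zero_iff]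
    exact h3
  have : Fact (Nat.Prime 3) := ⟨Nat.prime_three⟩
  have hK1 : (K : ZMod 3) = 1 := by
    have := mul_left_cancel₀ hne (a := ((n - 1 : ℕ) : ZMod 3)) (b := 1) (c := (K : ZMod 3))
      (by rw [mul_one]; exact hK3)
    exact this.symm
  have hK2 : (K : ZMod 3) = ((1 : ℕ) : ZMod 3) := by rw [hK1, Nat.cast_one]
  rw [ZMod.natCast_eq_natCast_iff'] at hK2
  omega

/-- `n / φ(n)`. -/
theorem prod_gt (n K : ℕ) (hn : 1 < n) (hc : ¬ n.Prime) (hK : n - 1 = Nat.totient n * K) :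
    (K : ℝ) < ∏ p ∈ n.primeFactors, (1 + ((p : ℝ) - 1)⁻¹) := by
  have h : Nat.totient n ∣ n - 1 := ⟨K, hK⟩
  have hs := sqf n hn h
  have hpos : (0 : ℝ) < Nat.totient n := by
    exact_mod_cast Nat.totient_pos.mpr (by omega)
  have h1 : (∏ p ∈ n.primeFactors, (1 + ((p : ℝ) - 1)⁻¹)) * (Nat.totient n : ℝ) = (n : ℝ) := by
    rw [tot_eq n hn hs]
    conv_rhs => rw [← Nat.prod_primeFactors_of_squarefree hs]
    rw [Nat.cast_prod, Nat.cast_prod, ← Finset.prod_mul_distrib]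
    refine Finset.prod_congr rfl fun p hp => ?_
    have h3 := (prime_facts n hn hc h p hp).2.1
    have h4 : (3 : ℝ) ≤ p := by exact_mod_cast h3
    rw [Nat.cast_sub (by omega)]
    have h5 : (p : ℝ) - 1 ≠ 0 := by linarith
    field_simp
    push_cast
    ring
  have h2 : (Nat.totient n : ℝ) * K < n := by
    have : Nat.totient n * K < n := by omega
    exact_mod_cast this
  nlinarith

end Pool.Agent.W432.LT
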