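import Pool.Agent.W432.LT.Arith

set_option autoImplicit false

namespace Pool.Agent.W432.LT

open Finset

theorem f5 (q : ℕ) (h : 5 ≤ q) : (1 - (q : ℝ)⁻¹)⁻¹ ≤ 5 / 4 ∧ 0 < (1 - (q : ℝ)⁻¹)⁻¹ := by
  have h5 : (5 : ℝ) ≤ q := by exact_mod_cast h
  have h1 : (q : ℝ)⁻¹ ≤ 5⁻¹ := inv_anti₀ (by norm_num) h5
  have h2 : (4 : ℝ) / 5 ≤ 1 - (q : ℝ)⁻¹ := by linarith
  refine ⟨?_, inv_pos.mpr (by linarith)⟩
  have := inv_anti₀ (by norm_num) h2
  linarith

theorem f7 (q : ℕ) (h : 7 ≤ q) : (1 - (q : ℝ)⁻¹)⁻¹ ≤ 7 / 6 ∧ 0 < (1 - (q : ℝ)⁻¹)⁻¹ := by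
  have h5 : (7 : ℝ) ≤ q := by exact_mod_cast h
  have h1 : (q : ℝ)⁻¹ ≤ 7⁻¹ := inv_anti₀ (by norm_num) h5
  have h2 : (6 : ℝ) / 7 ≤ 1 - (q : ℝ)⁻¹ := by linarith
  refine ⟨?_, inv_pos.mpr (by linarith)⟩
  have := inv_anti₀ (by norm_num) h2
  linarith

theorem pair_le (q r : ℕ) (hq : q.Prime) (hr : r.Prime) (hq5 : 5 ≤ q) (hr5 : 5 ≤ r) (h : q ≠ r) :
    (1 - (q : ℝ)⁻¹)⁻¹ * (1 - (r : ℝ)⁻¹)⁻¹ ≤ 35 / 24 := by
  have hq6 : q ≠ 6 := by rintro rfl; revert hq; norm_num
  have hr6 : r ≠ 6 := by rintro rfl; revert hr; norm_num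
  rcases Nat.lt_or_ge q 7 with h1 | h1
  · have h2 : 7 ≤ r := by omega
    have a := f5 q hq5
    have b := f7 r h2
    nlinarith [a.1, a.2, b.1, b.2]
  · have a := f7 q h1
    have b := f5 r hr5
    nlinarith [a.1, a.2, b.1, b.2]

theorem prod_small (S : Finset ℕ) (hS : ∀ q ∈ S, q.Prime ∧ 5 ≤ q) (hc : S.card ≤ 2) :
    ∏ q ∈ S, (1 - (q : ℝ)⁻¹)⁻¹ ≤ 35 / 24 := by
  have h3 : S.card = 0 ∨ S.card = 1 ∨ S.card = 2 := by omega
  rcases h3 with h | h | h
  · rw [Finset.card_eq_zero.mp h]; norm_num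
  · obtain ⟨q, rfl⟩ := Finset.card_eq_one.mp h
    rw [Finset.prod_singleton]
    have := f5 q (hS q (by simp)).2
    linarith [this.1]
  · obtain ⟨q, r, hqr, rfl⟩ := Finset.card_eq_two.mp h
    rw [Finset.prod_pair hqr]
    exact pair_le q r (hS q (by simp)).1 (hS r (by simp)).1 (hS q (by simp)).2 (hS r (by simp)).2 hqr

theorem exp_bd : Real.exp (35 / 24 - (1 / 2 + 1 / 4)) < 32 / 15 := by
  have h1 : (1 - 17 / 192 : ℝ) * Real.exp (17 / 192) ≤ 1 := by
    have h8 := Real.add_one_le_exp (-(17 / 192 : ℝ))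
    have h9 : Real.exp (-(17 / 192)) * Real.exp (17 / 192) = 1 := by rw [← Real.exp_add]; simp
    have h10 := Real.exp_pos (17 / 192 : ℝ)
    nlinarith
  have h2 : Real.exp (17 / 192) ≤ 192 / 175 := by
    have h10 := Real.exp_pos (17 / 192 : ℝ)
    nlinarith
  have h3 : Real.exp (35 / 24 - (1 / 2 + 1 / 4)) = Real.exp (17 / 192) ^ 8 := by
    rw [← Real.exp_nat_mul]
    norm_num
  rw [h3]
  calc Real.exp (17 / 192) ^ 8 ≤ (192 / 175 : ℝ) ^ 8 :=
        pow_le_pow_left₀ (Real.exp_pos _).le h2 8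
    _ < 32 / 15 := by norm_num

theorem four_fac (S : Finset ℕ) (h2 : 2 ∈ S) (m : ℕ) (hm : m ∣ 4) : m ∈ Nat.factoredNumbers S := by
  rw [Nat.mem_factoredNumbers']
  intro r hr hrm
  have h : r ∣ 2 ^ 2 := hrm.trans hm
  have := (Nat.prime_dvd_prime_iff_eq hr Nat.prime_two).mp (hr.dvd_of_dvd_pow h)
  rw [this]; exact h2

/-- The case `3 ∤ n - 1`. -/
theorem caseA (n : ℕ) (hn : 1 < n) (hc : ¬ n.Prime) (h : Nat.totient n ∣ n - 1)
    (h3 : ¬ 3 ∣ n - 1) (hcard : (n - 1).primeFactors.card ≤ 3) : False := by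
  obtain ⟨K, hK⟩ := id h
  have hK4 := four_le n K hn hc hK h3
  have hgt := prod_gt n K hn hc hK
  have hK4' : (4 : ℝ) ≤ K := by exact_mod_cast hK4
  have hm0 : n - 1 ≠ 0 := by omega
  have hodd := odd_of n hn hc h
  have h2m : 2 ∣ n - 1 := by omega
  have h2S : 2 ∈ (n - 1).primeFactors := Nat.mem_primeFactors.mpr ⟨Nat.prime_two, h2m, hm0⟩
  have hb := main_bound (n - 1).primeFactors (fun q hq => Nat.prime_of_mem_primeFactors hq)
    (35 / 24) (by
      rw [← Finset.mul_prod_erase _ _ h2S]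
      have := prod_small ((n - 1).primeFactors.erase 2) (by
        intro q hq
        rw [Finset.mem_erase] at hq
        have hqp := Nat.prime_of_mem_primeFactors hq.2
        have hqd := Nat.dvd_of_mem_primeFactors hq.2
        refine ⟨hqp, ?_⟩
        have h1 := hqp.two_le
        have h3' : q ≠ 3 := by rintro rfl; exact h3 hqd
        have h4' : q ≠ 4 := by rintro rfl; revert hqp; norm_num
        have := hq.1
        omega) (by
        rw [Finset.card_erase_of_mem h2S]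
        omega)
      have e2 : (1 - ((2 : ℕ) : ℝ)⁻¹)⁻¹ = 2 := by norm_num
      rw [e2]
      linarith)
    [2, 4] [3, 5] (by decide) (by
      intro m hm
      simp only [List.mem_cons, List.not_mem_nil, or_false] at hm
      rcases hm with rfl | rfl
      · exact ⟨four_fac _ h2S 2 (by norm_num), by norm_num⟩
      · exact ⟨four_fac _ h2S 4 (by norm_num), by norm_num⟩) n.primeFactors (by
      intro p hp
      obtain ⟨h1, h2, h4, h5', h6⟩ := prime_facts n hn hc h p hp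
      refine ⟨h1.two_le, ?_, h6⟩
      rw [Nat.mem_factoredNumbers']
      intro r hr hrp
      exact Nat.mem_primeFactors.mpr ⟨hr, hrp.trans h4, hm0⟩) (by
      intro p hp hmem
      simp only [List.mem_cons, List.not_mem_nil, or_false] at hmem ⊢
      have := (prime_facts n hn hc h p hp).2.1
      omega) (by
      intro p hp
      simp only [List.mem_cons, List.not_mem_nil, or_false] at hp
      omega)
  have he := exp_bd
  simp only [List.map_cons, List.map_nil, List.prod_cons, List.prod_nil, List.sum_cons,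
    List.sum_nil] at hb
  push_cast at hb
  norm_num at hb he
  linarith

end Pool.Agent.W432.LT
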