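import Mathlib

set_option autoImplicit false

namespace Pool.Agent.W432.LT

theorem per (M x k e : ℕ) (hx : x ^ k ≡ 1 [MOD M]) : x ^ e ≡ x ^ (e % k) [MOD M] := by
  conv_lhs => rw [← Nat.div_add_mod e k, pow_add, pow_mul]
  have h2 := (hx.pow (e / k)).mul_right (x ^ (e % k))
  simpa using h2

theorem powmul (x y z a b c k : ℕ) :
    (x ^ a * y ^ b * z ^ c) ^ k = (x ^ k) ^ a * (y ^ k) ^ b * (z ^ k) ^ c := by
  rw [mul_pow, mul_pow, ← pow_mul, ← pow_mul, ← pow_mul, mul_comm a, mul_comm b, mul_comm c,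
    pow_mul, pow_mul, pow_mul]

/-- If `M ∣ X + 1` then `X ≡ M - 1`. -/
theorem negone (M X : ℕ) (hM : 0 < M) (h : M ∣ X + 1) : X ≡ M - 1 [MOD M] := by
  have h1 : X + 1 ≡ (M - 1) + 1 [MOD M] := by
    rw [Nat.sub_add_cancel hM]
    exact (Nat.modEq_zero_iff_dvd.mpr h).trans (Nat.modEq_zero_iff_dvd.mpr (dvd_refl M)).symm
  exact Nat.ModEq.add_right_cancel' 1 h1

theorem cong_gen (M x y z a b c k r u v w s : ℕ) (hM : 0 < M) (h : M ∣ x ^ a * y ^ b * z ^ c + 1)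
    (hu : x ^ k ≡ u [MOD M]) (hv : y ^ k ≡ v [MOD M]) (hw : z ^ k ≡ w [MOD M])
    (hr : (M - 1) ^ k ≡ r [MOD M]) (hu' : u ^ s ≡ 1 [MOD M]) (hv' : v ^ s ≡ 1 [MOD M])
    (hw' : w ^ s ≡ 1 [MOD M]) :
    u ^ (a % s) * v ^ (b % s) * w ^ (c % s) ≡ r [MOD M] := by
  have h1 := (negone M _ hM h).pow k
  rw [powmul] at h1
  have h2 : (x ^ k) ^ a * (y ^ k) ^ b * (z ^ k) ^ c
      ≡ u ^ (a % s) * v ^ (b % s) * w ^ (c % s) [MOD M] :=
    ((((hu.pow a).trans (per M u s a hu')).mul ((hv.pow b).trans (per M v s b hv')))).mul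
      ((hw.pow c).trans (per M w s c hw'))
  exact h2.symm.trans (h1.trans hr)

theorem fin11 : ∀ a < 4, ∀ b < 4, ∀ c < 4,
    ¬ (2 ^ a * 3 ^ b * 1 ^ c % 5 = 4 ∧ 1 ^ a * 6 ^ b * 1 ^ c % 7 = 6 ∧
      8 ^ a * 1 ^ b * 5 ^ c % 13 = 12 ∧ 16 ^ a * 13 ^ b * 4 ^ c % 17 = 1) := by
  decide

theorem fin23 : ∀ a < 2, ∀ b < 2, ∀ c < 2,
    ¬ (4 ^ a * 4 ^ b * 4 ^ c % 5 = 1 ∧ 138 ^ a * 138 ^ b * 138 ^ c % 139 = 138) := by
  decide

/-- Congruences for `2, 3, 11`. -/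
theorem cong11 (a b c : ℕ) (h5 : 5 ∣ 2 ^ a * 3 ^ b * 11 ^ c + 1)
    (h7 : 7 ∣ 2 ^ a * 3 ^ b * 11 ^ c + 1) (h13 : 13 ∣ 2 ^ a * 3 ^ b * 11 ^ c + 1)
    (h17 : 17 ∣ 2 ^ a * 3 ^ b * 11 ^ c + 1) : False := by
  have e5 := cong_gen 5 2 3 11 a b c 1 4 2 3 1 4 (by norm_num) h5 (by decide) (by decide)
    (by decide) (by decide) (by decide) (by decide) (by decide)
  have e7 := cong_gen 7 2 3 11 a b c 3 6 1 6 1 4 (by norm_num) h7 (by decide) (by decide)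
    (by decide) (by decide) (by decide) (by decide) (by decide)
  have e13 := cong_gen 13 2 3 11 a b c 3 12 8 1 5 4 (by norm_num) h13 (by decide) (by decide)
    (by decide) (by decide) (by decide) (by decide) (by decide)
  have e17 := cong_gen 17 2 3 11 a b c 4 1 16 13 4 4 (by norm_num) h17 (by decide) (by decide)
    (by decide) (by decide) (by decide) (by decide) (by decide)
  exact fin11 (a % 4) (Nat.mod_lt _ (by norm_num)) (b % 4) (Nat.mod_lt _ (by norm_num))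
    (c % 4) (Nat.mod_lt _ (by norm_num)) ⟨e5, e7, e13, e17⟩

theorem p69 (x : ℕ) (h : x ^ 69 % 139 = 138) : x ^ 69 ≡ 138 [MOD 139] := by
  unfold Nat.ModEq
  rw [h]

/-- Congruences for `2, 3, 23`. -/
theorem cong23 (a b c : ℕ) (h5 : 5 ∣ 2 ^ a * 3 ^ b * 23 ^ c + 1)
    (h139 : 139 ∣ 2 ^ a * 3 ^ b * 23 ^ c + 1) : False := by
  have e5 := cong_gen 5 2 3 23 a b c 2 1 4 4 4 2 (by norm_num) h5 (by decide) (by decide)
    (by decide) (by decide) (by decide) (by decide) (by decide)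
  have e139 := cong_gen 139 2 3 23 a b c 69 138 138 138 138 2 (by norm_num) h139
    (p69 2 (by norm_num)) (p69 3 (by norm_num)) (p69 23 (by norm_num)) (p69 138 (by norm_num))
    (by decide) (by decide) (by decide)
  exact fin23 (a % 2) (Nat.mod_lt _ (by norm_num)) (b % 2) (Nat.mod_lt _ (by norm_num))
    (c % 2) (Nat.mod_lt _ (by norm_num)) ⟨e5, e139⟩

end Pool.Agent.W432.LT
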