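import Mathlib

set_option autoImplicit false

namespace Pool.Agent.W432.LT

open Finset

/-- The completely multiplicative function `1 / m`. -/
noncomputable def finv : ℕ →* ℝ where
  toFun m := (m : ℝ)⁻¹
  map_one' := by simp
  map_mul' a b := by push_cast; rw [mul_inv]

theorem finv_apply (m : ℕ) : finv m = (m : ℝ)⁻¹ := rfl

/-- Finite sums of reciprocals of numbers composed of the primes of `Q`. -/
theorem sum_le (Q : Finset ℕ) (hQ : ∀ q ∈ Q, q.Prime) (F : Finset ℕ)
    (hF : ∀ m ∈ F, m ∈ Nat.factoredNumbers Q) :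
    ∑ m ∈ F, (m : ℝ)⁻¹ ≤ ∏ q ∈ Q, (1 - (q : ℝ)⁻¹)⁻¹ := by
  have h : ∀ {p : ℕ}, p.Prime → ‖finv p‖ < 1 := by
    intro p hp
    rw [finv_apply, Real.norm_of_nonneg (by positivity)]
    exact inv_lt_one_of_one_lt₀ (by exact_mod_cast hp.one_lt)
  have hs := (EulerProduct.summable_and_hasSum_factoredNumbers_prod_filter_prime_geometric h Q).2
  have hfil : Q.filter (fun p => p.Prime) = Q := Finset.filter_true_of_mem hQ
  rw [hfil] at hs
  have hinj : Function.Injective (fun m : {x // x ∈ F} => (⟨m.1, hF m.1 m.2⟩ : Nat.factoredNumbers Q)) := by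
    intro a b hab
    apply Subtype.ext
    simpa using congrArg (fun z : Nat.factoredNumbers Q => (z : ℕ)) hab
  have h2 := sum_le_hasSum (F.attach.map ⟨_, hinj⟩) (fun i _ => by
    rw [finv_apply]; positivity) hs
  rw [Finset.sum_map] at h2
  simp only [Function.Embedding.coeFn_mk, finv_apply] at h2
  rw [Finset.sum_attach F (fun m => (m : ℝ)⁻¹)] at h2
  exact h2

/-- The same for even numbers. -/
theorem sum_even_le (Q : Finset ℕ) (hQ : ∀ q ∈ Q, q.Prime) (F : Finset ℕ)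
    (hF : ∀ m ∈ F, m ∈ Nat.factoredNumbers Q ∧ 2 ∣ m) :
    ∑ m ∈ F, (m : ℝ)⁻¹ ≤ (1 / 2) * ∏ q ∈ Q, (1 - (q : ℝ)⁻¹)⁻¹ := by
  have hinj : Set.InjOn (fun m : ℕ => m / 2) (F : Set ℕ) := by
    intro a ha b hb hab
    have h1 := (hF a ha).2
    have h2 := (hF b hb).2
    simp only at hab
    omega
  have h1 := sum_le Q hQ (F.image fun m => m / 2) (by
    intro m hm
    obtain ⟨a, ha, rfl⟩ := Finset.mem_image.mp hm
    exact Nat.mem_factoredNumbers_of_dvd (hF a ha).1 (Nat.div_dvd_of_dvd (hF a ha).2))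
  rw [Finset.sum_image hinj] at h1
  have h2 : ∑ m ∈ F, (m : ℝ)⁻¹ = (1 / 2) * ∑ m ∈ F, ((m / 2 : ℕ) : ℝ)⁻¹ := by
    rw [Finset.mul_sum]
    refine Finset.sum_congr rfl fun m hm => ?_
    obtain ⟨c, hc⟩ := (hF m hm).2
    subst hc
    rw [Nat.mul_div_cancel_left c (by norm_num)]
    push_cast
    rw [mul_inv]
    norm_num
  rw [h2]
  linarith

theorem one_le_prod_real {ι : Type*} (s : Finset ι) (f : ι → ℝ) (h : ∀ i ∈ s, 1 ≤ f i) :
    1 ≤ ∏ i ∈ s, f i := by
  refine Finset.prod_induction f (fun x => 1 ≤ x) (fun a b ha hb => ?_) le_rfl h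
  nlinarith

/-- The main bound. -/
theorem main_bound (Q : Finset ℕ) (hQ : ∀ q ∈ Q, q.Prime) (c : ℝ)
    (hc : (1 / 2) * ∏ q ∈ Q, (1 - (q : ℝ)⁻¹)⁻¹ ≤ c) (L A : List ℕ) (hLn : L.Nodup)
    (hL : ∀ m ∈ L, m ∈ Nat.factoredNumbers Q ∧ 2 ∣ m) (T : Finset ℕ)
    (hT : ∀ p ∈ T, 2 ≤ p ∧ p - 1 ∈ Nat.factoredNumbers Q ∧ 2 ∣ p - 1)
    (hA : ∀ p ∈ T, p - 1 ∈ L → p ∈ A) (hA2 : ∀ p ∈ A, 2 ≤ p) :
    ∏ p ∈ T, (1 + ((p : ℝ) - 1)⁻¹)
      ≤ (A.map fun p : ℕ => (1 + ((p : ℝ) - 1)⁻¹)).prod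
        * Real.exp (c - (L.map fun m : ℕ => (m : ℝ)⁻¹).sum) := by
  classical
  set f : ℕ → ℝ := fun p => 1 + ((p : ℝ) - 1)⁻¹ with hf
  have hf1 : ∀ p : ℕ, 2 ≤ p → 1 ≤ f p := by
    intro p hp
    have : (0 : ℝ) ≤ ((p : ℝ) - 1)⁻¹ := by
      apply inv_nonneg.mpr
      have : (2 : ℝ) ≤ p := by exact_mod_cast hp
      linarith
    simp only [hf]; linarith
  -- split
  rw [← Finset.prod_filter_mul_prod_filter_not T (fun p => p - 1 ∈ L)]
  have hlist : ∀ (A : List ℕ), (∀ p ∈ A, 2 ≤ p) →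
      ∏ p ∈ A.toFinset, f p ≤ (A.map f).prod := by
    intro A
    induction A with
    | nil => intro _; simp
    | cons a A ih =>
      intro h
      have iha := ih (fun p hp => h p (List.mem_cons_of_mem _ hp))
      have ha1 := hf1 a (h a List.mem_cons_self)
      have hpos : 0 ≤ ∏ p ∈ A.toFinset, f p := by
        refine Finset.prod_nonneg fun p hp => ?_
        have := hf1 p (h p (List.mem_cons_of_mem _ (List.mem_toFinset.mp hp)))
        linarith
      rw [List.toFinset_cons, List.map_cons, List.prod_cons]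
      by_cases hmem : a ∈ A.toFinset
      · rw [Finset.insert_eq_of_mem hmem]
        nlinarith
      · rw [Finset.prod_insert hmem]
        have : 0 ≤ f a := by linarith
        exact mul_le_mul_of_nonneg_left iha this
  have h1 : ∏ p ∈ T.filter (fun p => p - 1 ∈ L), f p ≤ (A.map f).prod := by
    refine le_trans ?_ (hlist A hA2)
    have hsub : T.filter (fun p => p - 1 ∈ L) ⊆ A.toFinset := by
      intro p hp
      rw [Finset.mem_filter] at hp
      exact List.mem_toFinset.mpr (hA p hp.1 hp.2)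
    rw [← Finset.prod_sdiff hsub]
    have h3 := one_le_prod_real (A.toFinset \ T.filter (fun p => p - 1 ∈ L)) f (by
      intro p hp
      exact hf1 p (hA2 p (List.mem_toFinset.mp (Finset.mem_sdiff.mp hp).1)))
    have h4 : 0 ≤ ∏ p ∈ T.filter (fun p => p - 1 ∈ L), f p := by
      refine Finset.prod_nonneg fun p hp => ?_
      have := hf1 p (hT p (Finset.mem_filter.mp hp).1).1
      linarith
    nlinarith
  have h2 : ∏ p ∈ T.filter (fun p => ¬ (p - 1 ∈ L)), f p
      ≤ Real.exp (c - (L.map fun m : ℕ => (m : ℝ)⁻¹).sum) := by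
    have h5 : ∏ p ∈ T.filter (fun p => ¬ (p - 1 ∈ L)), f p
        ≤ ∏ p ∈ T.filter (fun p => ¬ (p - 1 ∈ L)), Real.exp (((p - 1 : ℕ) : ℝ)⁻¹) := by
      refine Finset.prod_le_prod (fun p hp => ?_) (fun p hp => ?_)
      · have := hf1 p (hT p (Finset.mem_filter.mp hp).1).1
        linarith
      · have h2p := (hT p (Finset.mem_filter.mp hp).1).1
        rw [Nat.cast_sub (by omega)]
        simp only [hf, Nat.cast_one]
        have := Real.add_one_le_exp (((p : ℝ) - 1)⁻¹)
        linarith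
    refine h5.trans ?_
    rw [← Real.exp_sum]
    refine Real.exp_le_exp.mpr ?_
    -- the sum
    have hinj : Set.InjOn (fun p : ℕ => p - 1) ((T.filter (fun p => ¬ (p - 1 ∈ L)) : Finset ℕ) : Set ℕ) := by
      intro a ha b hb hab
      have h1 := (hT a (Finset.mem_filter.mp (Finset.mem_coe.mp ha)).1).1
      have h2 := (hT b (Finset.mem_filter.mp (Finset.mem_coe.mp hb)).1).1
      simp only at hab
      omega
    have h6 := Finset.sum_image (f := fun m : ℕ => (m : ℝ)⁻¹) hinj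
    have h7 : (L.map fun m : ℕ => (m : ℝ)⁻¹).sum = ∑ m ∈ L.toFinset, (m : ℝ)⁻¹ :=
      (List.sum_toFinset _ hLn).symm
    have hdisj : Disjoint ((T.filter (fun p => ¬ (p - 1 ∈ L))).image fun p => p - 1) L.toFinset := by
      rw [Finset.disjoint_left]
      intro m hm hmL
      obtain ⟨p, hp, rfl⟩ := Finset.mem_image.mp hm
      exact (Finset.mem_filter.mp hp).2 (List.mem_toFinset.mp hmL)
    have h8 := sum_even_le Q hQ
      (((T.filter (fun p => ¬ (p - 1 ∈ L))).image fun p => p - 1) ∪ L.toFinset) (by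
        intro m hm
        rcases Finset.mem_union.mp hm with h | h
        · obtain ⟨p, hp, rfl⟩ := Finset.mem_image.mp h
          exact (hT p (Finset.mem_filter.mp hp).1).2
        · exact hL m (List.mem_toFinset.mp h))
    rw [Finset.sum_union hdisj, h6] at h8
    rw [h7]
    linarith
  have h9 : 0 ≤ ∏ p ∈ T.filter (fun p => ¬ (p - 1 ∈ L)), f p := by
    refine Finset.prod_nonneg fun p hp => ?_
    have := hf1 p (hT p (Finset.mem_filter.mp hp).1).1
    linarith
  have h10 : 0 ≤ (A.map f).prod := by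
    refine List.prod_nonneg fun x hx => ?_
    obtain ⟨p, hp, rfl⟩ := List.mem_map.mp hx
    have := hf1 p (hA2 p hp)
    linarith
  exact mul_le_mul h1 h2 h9 h10

end Pool.Agent.W432.LT
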