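import Pool.Agent.W432.LT.Main
import Pool.Agent.W432.LT.CaseA

set_option autoImplicit false

namespace Pool.Agent.W432.LT.Final

open Finset Pool.Agent.W432.LT

/-- **Lehmer's totient problem.** If `n` is composite and `φ(n)` divides `n - 1`, then `n - 1`
has at least four distinct prime factors. -/
theorem four_primes (n : ℕ) (hn : 1 < n) (hc : ¬ n.Prime) (h : Nat.totient n ∣ n - 1) :
    4 ≤ (n - 1).primeFactors.card := by
  by_contra hcon
  have hcard : (n - 1).primeFactors.card ≤ 3 := by omega
  by_cases h3 : 3 ∣ n - 1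
  · have hm0 : n - 1 ≠ 0 := by omega
    have hodd := odd_of n hn hc h
    have h2m : 2 ∣ n - 1 := by omega
    have h2S : 2 ∈ (n - 1).primeFactors := Nat.mem_primeFactors.mpr ⟨Nat.prime_two, h2m, hm0⟩
    have h3S : 3 ∈ (n - 1).primeFactors := Nat.mem_primeFactors.mpr ⟨Nat.prime_three, h3, hm0⟩
    have h3S' : 3 ∈ (n - 1).primeFactors.erase 2 := Finset.mem_erase.mpr ⟨by norm_num, h3S⟩
    have hc1 : (((n - 1).primeFactors.erase 2).erase 3).card ≤ 1 := by
      rw [Finset.card_erase_of_mem h3S', Finset.card_erase_of_mem h2S]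
      omega
    rcases Nat.lt_or_ge (((n - 1).primeFactors.erase 2).erase 3).card 1 with hc0 | hc0
    · -- only 2 and 3
      have he : ((n - 1).primeFactors.erase 2).erase 3 = ∅ :=
        Finset.card_eq_zero.mp (by omega)
      refine case3 n hn hc h 53 (by norm_num) (by norm_num) h3 (fun x hx => ?_)
        (fun hlt => absurd hlt (by norm_num))
      by_contra hx'
      simp only [Finset.mem_insert, Finset.mem_singleton, not_or] at hx'
      have : x ∈ ((n - 1).primeFactors.erase 2).erase 3 :=
        Finset.mem_erase.mpr ⟨hx'.2.1, Finset.mem_erase.mpr ⟨hx'.1, hx⟩⟩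
      rw [he] at this
      exact absurd this (Finset.notMem_empty x)
    · obtain ⟨q, hq⟩ := Finset.card_eq_one.mp (le_antisymm hc1 hc0)
      have hqm : q ∈ ((n - 1).primeFactors.erase 2).erase 3 := by rw [hq]; simp
      rw [Finset.mem_erase, Finset.mem_erase] at hqm
      obtain ⟨hq3, hq2, hqS⟩ := hqm
      have hqp := Nat.prime_of_mem_primeFactors hqS
      have hq5 : 5 ≤ q := by
        have h1 := hqp.two_le
        have h4' : q ≠ 4 := by rintro rfl; revert hqp; norm_num
        omega
      have hSe : (n - 1).primeFactors = {2, 3, q} := by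
        rw [← hq, Finset.insert_erase h3S', Finset.insert_erase h2S]
      exact case3 n hn hc h q hqp hq5 h3 hSe.subset (fun _ => hSe)
  · exact caseA n hn hc h h3 hcard

end Pool.Agent.W432.LT.Final
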