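import Pool.Agent.W432.LT.Arith
import Pool.Agent.W432.LT.Data
import Pool.Agent.W432.LT.Cong

set_option autoImplicit false

namespace Pool.Agent.W432.LT

open Finset

theorem list_primes (q : ℕ) (hq : q.Prime) (h5 : 5 ≤ q) (h53 : q < 53) :
    q = 5 ∨ q = 7 ∨ q = 11 ∨ q = 13 ∨ q = 17 ∨ q = 19 ∨ q = 23 ∨ q = 29 ∨ q = 31 ∨ q = 37
      ∨ q = 41 ∨ q = 43 ∨ q = 47 := by
  by_contra hcon
  have h2 : q = 2 ∨ ¬ 2 ∣ q := by
    by_cases h : 2 ∣ q
    · exact Or.inl ((Nat.prime_dvd_prime_iff_eq Nat.prime_two hq).mp h).symm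
    · exact Or.inr h
  have h3 : q = 3 ∨ ¬ 3 ∣ q := by
    by_cases h : 3 ∣ q
    · exact Or.inl ((Nat.prime_dvd_prime_iff_eq Nat.prime_three hq).mp h).symm
    · exact Or.inr h
  have h5' : q = 5 ∨ ¬ 5 ∣ q := by
    by_cases h : 5 ∣ q
    · exact Or.inl ((Nat.prime_dvd_prime_iff_eq Nat.prime_five hq).mp h).symm
    · exact Or.inr h
  have h7 : q = 7 ∨ ¬ 7 ∣ q := by
    by_cases h : 7 ∣ q
    · exact Or.inl ((Nat.prime_dvd_prime_iff_eq (by norm_num) hq).mp h).symm
    · exact Or.inr h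
  clear hq
  interval_cases q <;> omega

theorem small (q : ℕ) (hq : q.Prime) (h5 : 5 ≤ q) (h53 : q < 53) (h11 : q ≠ 11) (h23 : q ≠ 23) :
    ∃ L A : List ℕ, dataChk (6 * q) [3, q] L A = true
      ∧ numChk (3 * q) (2 * (q - 1)) 1000000000 2 L A = true := by
  rcases list_primes q hq h5 h53 with h | h | h | h | h | h | h | h | h | h | h | h | h
  · subst h; exact ⟨L5, A5, d5, n5⟩
  · subst h; exact ⟨L7, A7, d7, n7⟩
  · exact absurd h h11
  · subst h; exact ⟨L13, A13, d13, n13⟩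
  · subst h; exact ⟨L17, A17, d17, n17⟩
  · subst h; exact ⟨L19, A19, d19, n19⟩
  · exact absurd h h23
  · subst h; exact ⟨L29, A29, d29, n29⟩
  · subst h; exact ⟨L31, A31, d31, n31⟩
  · subst h; exact ⟨L37, A37, d37, n37⟩
  · subst h; exact ⟨L41, A41, d41, n41⟩
  · subst h; exact ⟨L43, A43, d43, n43⟩
  · subst h; exact ⟨L47, A47, d47, n47⟩

theorem six (q : ℕ) (p : ℕ) (hp : p.Prime) (h : p ∣ 6) : p = 2 ∨ p = 3 ∨ p = q := by
  have h2 : p ∣ 2 * 3 := h
  rcases (Nat.Prime.dvd_mul hp).mp h2 with h3 | h3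
  · exact Or.inl ((Nat.prime_dvd_prime_iff_eq hp Nat.prime_two).mp h3)
  · exact Or.inr (Or.inl ((Nat.prime_dvd_prime_iff_eq hp Nat.prime_three).mp h3))

theorem six_mul (q : ℕ) (hq : q.Prime) (p : ℕ) (hp : p.Prime) (h : p ∣ 6 * q) :
    p = 2 ∨ p = 3 ∨ p = q := by
  rcases (Nat.Prime.dvd_mul hp).mp h with h1 | h1
  · exact six q p hp h1
  · exact Or.inr (Or.inr ((Nat.prime_dvd_prime_iff_eq hp hq).mp h1))

theorem cst (q : ℕ) (h5 : 5 ≤ q) :
    (3 : ℝ) * q / (2 * (q - 1)) ≤ ((3 * q : ℕ) : ℝ) / ((2 * (q - 1) : ℕ) : ℝ) := by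
  rw [Nat.cast_mul, Nat.cast_mul, Nat.cast_sub (by omega)]
  push_cast
  exact le_refl _

theorem fac3 (m q : ℕ) (hm : m ≠ 0) (h5 : 5 ≤ q) (hS : m.primeFactors = {2, 3, q}) :
    m = 2 ^ (m.factorization 2) * 3 ^ (m.factorization 3) * q ^ (m.factorization q) := by
  have h1 := Nat.prod_factorization_pow_eq_self hm
  rw [Finsupp.prod, Nat.support_factorization, hS, Finset.prod_insert, Finset.prod_insert,
    Finset.prod_singleton, ← mul_assoc] at h1
  · exact h1.symm
  · simp only [Finset.mem_singleton]; omega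
  · simp only [Finset.mem_insert, Finset.mem_singleton]; omega

/-- The case `3 ∣ n - 1`, prime factors of `n - 1` contained in `{2, 3, q}`. -/
theorem case3 (n : ℕ) (hn : 1 < n) (hc : ¬ n.Prime) (h : Nat.totient n ∣ n - 1) (q : ℕ)
    (hq : q.Prime) (h5 : 5 ≤ q) (h3 : 3 ∣ n - 1) (hS : (n - 1).primeFactors ⊆ {2, 3, q})
    (hSq : q < 53 → (n - 1).primeFactors = {2, 3, q}) : False := by
  obtain ⟨K, hK⟩ := id h
  have hK2 := two_le n K hn hc hK
  have hgt := prod_gt n K hn hc hK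
  have hK2' : (2 : ℝ) ≤ K := by exact_mod_cast hK2
  have hm0 : n - 1 ≠ 0 := by omega
  -- basic facts for the primes of n
  have hT : ∀ p ∈ n.primeFactors, p.Prime ∧ p ≠ 3 ∧ p - 1 ∈ Nat.factoredNumbers {2, 3, q}
      ∧ 2 ∣ p - 1 := by
    intro p hp
    obtain ⟨h1, h2, h4, h5', h6⟩ := prime_facts n hn hc h p hp
    refine ⟨h1, ?_, ?_, h6⟩
    · rintro rfl
      exact h5' h3
    · rw [Nat.mem_factoredNumbers']
      intro r hr hrp
      exact hS (Nat.mem_primeFactors.mpr ⟨hr, hrp.trans h4, hm0⟩)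
  rcases Nat.lt_or_ge q 53 with h53 | h53
  · have hSe := hSq h53
    have hqd : q ∣ n - 1 := by
      have : q ∈ (n - 1).primeFactors := by rw [hSe]; simp
      exact Nat.dvd_of_mem_primeFactors this
    have hTq : ∀ p ∈ n.primeFactors, p ≠ q := by
      intro p hp hpq
      subst hpq
      exact (prime_facts n hn hc h p hp).2.2.2.1 hqd
    -- exclusion lemma
    have hexc : ∀ (E L A : List ℕ), dataChk (6 * q) E L A = true →
        numChk (3 * q) (2 * (q - 1)) 1000000000 2 L A = true →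
        ¬ (∀ p ∈ n.primeFactors, p ∉ E) := by
      intro E L A hd hnum hE
      have := caseQ q hq h5 (6 * q) (fun p hp hpd => six_mul q hq p hp hpd) E L A hd
        (3 * q) (2 * (q - 1)) 1000000000 (by omega) (by norm_num) (cst q h5) hnum n.primeFactors
        (fun p hp => ⟨(hT p hp).1, hE p hp, (hT p hp).2.2.1, (hT p hp).2.2.2⟩)
      linarith
    have hforce : ∀ p0 : ℕ, (∃ L A : List ℕ, dataChk (6 * q) [3, q, p0] L A = true ∧
        numChk (3 * q) (2 * (q - 1)) 1000000000 2 L A = true) → p0 ∣ n := by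
      rintro p0 ⟨L, A, hd, hnum⟩
      by_contra hp0
      refine hexc [3, q, p0] L A hd hnum fun p hp hmem => ?_
      simp only [List.mem_cons, List.not_mem_nil, or_false] at hmem
      rcases hmem with h' | h' | h'
      · exact (hT p hp).2.1 h'
      · exact hTq p hp h'
      · exact hp0 (h' ▸ Nat.dvd_of_mem_primeFactors hp)
    by_cases h11 : q = 11
    · subst h11
      have f := fac3 (n - 1) 11 hm0 (by norm_num) hSe
      have hn1 : n = 2 ^ ((n - 1).factorization 2) * 3 ^ ((n - 1).factorization 3)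
          * 11 ^ ((n - 1).factorization 11) + 1 := by omega
      have g5 := hforce 5 ⟨_, _, d11_5, n11_5⟩
      have g7 := hforce 7 ⟨_, _, d11_7, n11_7⟩
      have g13 := hforce 13 ⟨_, _, d11_13, n11_13⟩
      have g17 := hforce 17 ⟨_, _, d11_17, n11_17⟩
      rw [hn1] at g5 g7 g13 g17
      exact cong11 _ _ _ g5 g7 g13 g17
    by_cases h23 : q = 23
    · subst h23
      have f := fac3 (n - 1) 23 hm0 (by norm_num) hSe
      have hn1 : n = 2 ^ ((n - 1).factorization 2) * 3 ^ ((n - 1).factorization 3)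
          * 23 ^ ((n - 1).factorization 23) + 1 := by omega
      have g5 := hforce 5 ⟨_, _, d23_5, n23_5⟩
      have g139 := hforce 139 ⟨_, _, d23_139, n23_139⟩
      rw [hn1] at g5 g139
      exact cong23 _ _ _ g5 g139
    obtain ⟨L, A, hd, hnum⟩ := small q hq h5 h53 h11 h23
    refine hexc [3, q] L A hd hnum fun p hp hmem => ?_
    simp only [List.mem_cons, List.not_mem_nil, or_false] at hmem
    rcases hmem with h' | h'
    · exact (hT p hp).2.1 h'
    · exact hTq p hp h'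
  · have hc' : (3 : ℝ) * q / (2 * (q - 1)) ≤ ((159 : ℕ) : ℝ) / ((104 : ℕ) : ℝ) := by
      have h53' : (53 : ℝ) ≤ q := by exact_mod_cast h53
      have : (0 : ℝ) < 2 * (q - 1) := by linarith
      rw [div_le_div_iff₀ this (by norm_num)]
      push_cast
      linarith
    have := caseQ q hq h5 6 (fun p hp hpd => six q p hp hpd) [3] L1 A1 d1 159 104 1000000000
      (by norm_num) (by norm_num) hc' n1 n.primeFactors
      (fun p hp => ⟨(hT p hp).1, by simpa using (hT p hp).2.1, (hT p hp).2.2.1, (hT p hp).2.2.2⟩)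
    linarith

end Pool.Agent.W432.LT
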