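import Pool.Agent.W432.LT.Core

set_option autoImplicit false

namespace Pool.Agent.W432.LT

open Finset

/-- The numerical inequality. -/
def numChk (cn cd D t : ℕ) (L A : List ℕ) : Bool :=
  decide (A.prod * cd * D + t * (A.map fun p => p - 1).prod * cn * D
    < t * (A.map fun p => p - 1).prod * (cd * (D + (L.map fun m => D / m).sum)))

theorem prod_map_eq (A : List ℕ) (hA : ∀ p ∈ A, 2 ≤ p) :
    (A.map fun p : ℕ => (1 + ((p : ℝ) - 1)⁻¹)).prod * (((A.map fun p => p - 1).prod : ℕ) : ℝ)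
      = ((A.prod : ℕ) : ℝ) := by
  induction A with
  | nil => simp
  | cons a A ih =>
    have iha := ih (fun p hp => hA p (List.mem_cons_of_mem _ hp))
    have ha := hA a List.mem_cons_self
    have ha' : (2 : ℝ) ≤ a := by exact_mod_cast ha
    have hne : (a : ℝ) - 1 ≠ 0 := by linarith
    simp only [List.map_cons, List.prod_cons, Nat.cast_mul] at *
    rw [← iha, Nat.cast_sub (by omega)]
    field_simp
    push_cast
    ring

theorem sum_ge (D : ℕ) (L : List ℕ) :
    (((L.map fun m => D / m).sum : ℕ) : ℝ) ≤ D * (L.map fun m : ℕ => (m : ℝ)⁻¹).sum := by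
  induction L with
  | nil => simp
  | cons a L ih =>
    simp only [List.map_cons, List.sum_cons, Nat.cast_add, mul_add]
    have : ((D / a : ℕ) : ℝ) ≤ D * (a : ℝ)⁻¹ := by
      rw [← div_eq_mul_inv]
      exact Nat.cast_div_le
    linarith

theorem num_bound (cn cd D t : ℕ) (hcd : 0 < cd) (hD : 0 < D) (L A : List ℕ)
    (hA : ∀ p ∈ A, 2 ≤ p) (h : numChk cn cd D t L A = true) :
    (A.map fun p : ℕ => (1 + ((p : ℝ) - 1)⁻¹)).prod
        * Real.exp ((cn : ℝ) / cd - (L.map fun m : ℕ => (m : ℝ)⁻¹).sum) < t := by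
  set R := (A.map fun p : ℕ => (1 + ((p : ℝ) - 1)⁻¹)).prod with hR
  set σ := (L.map fun m : ℕ => (m : ℝ)⁻¹).sum with hσ
  have h1 := prod_map_eq A hA
  rw [← hR] at h1
  have h2 := sum_ge D L
  rw [← hσ] at h2
  simp only [numChk, decide_eq_true_eq] at h
  have hbpos : 0 < (A.map fun p => p - 1).prod := by
    refine List.prod_pos fun x hx => ?_
    obtain ⟨p, hp, rfl⟩ := List.mem_map.mp hx
    have := hA p hp
    omega
  generalize (A.map fun p => p - 1).prod = b at h h1 hbpos
  generalize A.prod = a at h h1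
  generalize (L.map fun m => D / m).sum = u at h h2
  have h3 : ((a * cd * D + t * b * cn * D : ℕ) : ℝ) < ((t * b * (cd * (D + u)) : ℕ) : ℝ) := by
    exact_mod_cast h
  push_cast at h3
  set P1 : ℝ := (b : ℝ) with hP1
  set s : ℝ := (u : ℝ) with hs
  have hP1pos : 0 < P1 := by
    rw [hP1]; exact_mod_cast hbpos
  have hcd' : (0 : ℝ) < cd := by exact_mod_cast hcd
  have hD' : (0 : ℝ) < D := by exact_mod_cast hD
  have hRpos : 0 < R := by
    rw [hR]
    refine List.prod_pos fun x hx => ?_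
    obtain ⟨p, hp, rfl⟩ := List.mem_map.mp hx
    have h2 := hA p hp
    have h2' : (2 : ℝ) ≤ p := by exact_mod_cast h2
    have : (0 : ℝ) < ((p : ℝ) - 1)⁻¹ := inv_pos.mpr (by linarith)
    linarith
  have key : R * (cd * D) + t * (cn * D) < t * (cd * (D + s)) := by
    have h4 : (R * (cd * D) + t * (cn * D)) * P1 < (t * (cd * (D + s))) * P1 := by
      rw [← h1] at h3
      nlinarith [h3]
    exact lt_of_mul_lt_mul_right h4 hP1pos.le
  have key2 : R < t * (1 - ((cn : ℝ) / cd - s / D)) := by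
    have e2 : t * (1 - ((cn : ℝ) / cd - s / D)) * (cd * D) = t * (cd * (D + s)) - t * (cn * D) := by
      field_simp
      ring
    have h5 : R * (cd * D) < (t * (1 - ((cn : ℝ) / cd - s / D))) * (cd * D) := by
      rw [e2]; linarith
    exact lt_of_mul_lt_mul_right h5 (by positivity)
  have hτ : (cn : ℝ) / cd - σ ≤ (cn : ℝ) / cd - s / D := by
    have : s / D ≤ σ := by
      rw [div_le_iff₀ hD']
      linarith
    linarith
  set τ' := (cn : ℝ) / cd - s / D with hτ'
  have h6 : Real.exp ((cn : ℝ) / cd - σ) ≤ Real.exp τ' := Real.exp_le_exp.mpr hτ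
  have h7 : (1 - τ') * Real.exp τ' ≤ 1 := by
    have h8 := Real.add_one_le_exp (-τ')
    have h9 : Real.exp (-τ') * Real.exp τ' = 1 := by rw [← Real.exp_add]; simp
    have h10 := Real.exp_pos τ'
    nlinarith
  have ht : (0 : ℝ) ≤ t := Nat.cast_nonneg t
  have h11 := Real.exp_pos τ'
  calc R * Real.exp ((cn : ℝ) / cd - σ) ≤ R * Real.exp τ' :=
        mul_le_mul_of_nonneg_left h6 hRpos.le
    _ < t * (1 - τ') * Real.exp τ' := mul_lt_mul_of_pos_right key2 h11
    _ = t * ((1 - τ') * Real.exp τ') := by ring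
    _ ≤ t * 1 := mul_le_mul_of_nonneg_left h7 ht
    _ = t := mul_one _

end Pool.Agent.W432.LT
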